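import Pool.Agent.Q259.NCSign.Crit

/-! Independence of the sign conjecture of the field of coefficients. -/

set_option autoImplicit false
set_option linter.unusedSectionVars false
set_option linter.unusedSimpArgs false
set_option backward.isDefEq.respectTransparency false
set_option backward.defeqAttrib.useBackward true

open CategoryTheory Limits MonoidalCategory
open Pool.Agent.Y112.SR

namespace Pool.Agent.Q259.NCSign

universe v u w

section

variable {C : Type u} [Category.{v} C] [Preadditive C] [MonoidalCategory C]
  [SymmetricCategory C] {K : Type w} [Field K] (R : SuperRealisation C K)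

/-- The operator on `R(M)` given by the combination of the endomorphisms `f i` of `M` with
coefficients `c i`. -/
noncomputable def comb {M : C} {n : ℕ} (c : Fin n → K) (f : Fin n → (M ⟶ M)) :
    Module.End K (R.H.obj M) := ∑ i, c i • (R.H.map (f i)).hom

/-- The even projector of `M` is given by an endomorphism of `M` with coefficients in the
subfield `F` of `K`: a linear combination `P` with coefficients in `F` of operators given by
endomorphisms of `M` satisfies `P + P = 1 + (parity)`. -/
def CPlusIn (F : Subfield K) (M : C) : Prop :=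
  ∃ (n : ℕ) (c : Fin n → K) (f : Fin n → (M ⟶ M)), (∀ i, c i ∈ F) ∧
    comb R c f + comb R c f = 1 + sgn R M

end

section

variable {C : Type u} [Category.{v} C] [Preadditive C] [Linear ℚ C] [MonoidalCategory C]
  [SymmetricCategory C] [RightRigidCategory C] {K : Type w} [Field K] (R : SuperRealisation C K)

lemma graded_of_in {F : Subfield K} {M : C} (h : CPlusIn R F M) : StableGraded R M := by
  obtain ⟨n, c, f, -, hP'⟩ := h
  intro N hN x hx
  have hPs : ∀ z ∈ N, comb R c f z ∈ N := by
    intro z hz
    rw [comb, LinearMap.sum_apply]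
    exact Submodule.sum_mem _ fun i _ => Submodule.smul_mem _ _ (hN _ ⟨f i, rfl⟩ z hz)
  have h3 : sgn R M x = (comb R c f x + comb R c f x) - x := by
    have h2 : comb R c f x + comb R c f x = x + sgn R M x := LinearMap.congr_fun hP' x
    rw [h2, add_sub_cancel_left]
  rw [h3]
  exact Submodule.sub_mem _ (Submodule.add_mem _ (hPs _ hx) (hPs _ hx)) hx

lemma in_of_cplus (F : Subfield K) {M : C} (h : R.CPlus M) : CPlusIn R F M := by
  obtain ⟨f, hf⟩ := (cplus_iff_hom R).1 h
  refine ⟨1, fun _ => 1, fun _ => f, fun _ => F.one_mem, ?_⟩
  have h1 : comb R (fun _ : Fin 1 => (1 : K)) (fun _ => f) = (R.H.map f).hom := by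
    rw [comb, Fin.sum_univ_one, one_smul]
  rw [h1, ← two_smul K]
  exact hf

/-- **Independence of the field of coefficients.** -/
theorem in_iff (hunit : ∀ c : 𝟙_ C ⟶ 𝟙_ C, ∃ q : ℚ, c = q • 𝟙 _) (M : C)
    (F : Subfield K) : CPlusIn R F M ↔ R.CPlus M :=
  ⟨fun h => ((cplus_tfae R hunit M).out 3 0).1 (graded_of_in R h), in_of_cplus R F⟩

end

end Pool.Agent.Q259.NCSign
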