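import Mathlib

/-! Operators on a super vector space whose powers have constant supertraces. -/

open Polynomial

set_option linter.unusedSectionVars false

namespace Pool.Agent.Q259.NCSign

variable {K V : Type*} [Field K] [CharZero K] [AddCommGroup V] [Module K V] [Module.Finite K V]

theorem idem_trace {f : Module.End K V} (hf : f * f = f) :
    ∃ n : ℕ, LinearMap.trace K V f = n ∧ (n = 0 → f = 0) := by
  have hp : LinearMap.IsProj (LinearMap.range f) f := by
    refine ⟨fun x => LinearMap.mem_range_self f x, ?_⟩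
    rintro _ ⟨y, rfl⟩
    exact LinearMap.congr_fun hf y
  refine ⟨Module.finrank K (LinearMap.range f), hp.trace, fun h => ?_⟩
  rw [Submodule.finrank_eq_zero, LinearMap.range_eq_bot] at h
  exact h

theorem trace_poly {ε T : Module.End K V} {p : K}
    (h : ∀ m : ℕ, 1 ≤ m → LinearMap.trace K V (T ^ m * ε) = p) (Q : K[X]) :
    LinearMap.trace K V (aeval T (X * Q) * ε) = p * Q.eval 1 := by
  induction Q using Polynomial.induction_on' with
  | add P Q hP hQ => rw [mul_add, map_add, add_mul, map_add, hP, hQ, eval_add, mul_add]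
  | monomial n a =>
    rw [← C_mul_X_pow_eq_monomial]
    have e : (X : K[X]) * (C a * X ^ n) = C a * X ^ (n + 1) := by ring
    rw [e, map_mul (aeval T), aeval_C, map_pow, aeval_X, mul_assoc, ← Algebra.smul_def, map_smul,
      h _ (by omega), eval_mul, eval_C, eval_pow, eval_X, one_pow, mul_one, smul_eq_mul, mul_comm]

theorem two_idem {a b : Module.End K V} (ha : a * a = a) (hb : b * b = b)
    (h : LinearMap.trace K V a + LinearMap.trace K V b = 0) : a = 0 ∧ b = 0 := by
  obtain ⟨m, hm, hm'⟩ := idem_trace ha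
  obtain ⟨n, hn, hn'⟩ := idem_trace hb
  rw [hm, hn] at h
  have h' : m + n = 0 := by exact_mod_cast h
  exact ⟨hm' (by omega), hn' (by omega)⟩

/-- Constant supertraces of the powers of `T`: it is unipotent on the even part and nilpotent on the
odd part. -/
theorem nilp_of_traces {ε T : Module.End K V} (hε : ε * ε = 1) (hT : ε * T = T * ε) {p : K}
    (hp : LinearMap.trace K V ((2 : K)⁻¹ • (1 + ε)) = p)
    (h : ∀ m : ℕ, 1 ≤ m → LinearMap.trace K V (T ^ m * ε) = p) :
    ∃ N : ℕ, (1 - T) ^ N * ((2 : K)⁻¹ • (1 + ε)) = 0 ∧ T ^ N * ((2 : K)⁻¹ • (1 - ε)) = 0 := by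
  have h2 : (2 : K) ≠ 0 := two_ne_zero
  have hint : IsIntegral K T := Algebra.IsIntegral.isIntegral T
  obtain ⟨q, hq, -⟩ := exists_eq_pow_rootMultiplicity_mul_and_not_dvd (minpoly K T)
    (minpoly.ne_zero hint) 0
  obtain ⟨g, hg, hgX⟩ := exists_eq_pow_rootMultiplicity_mul_and_not_dvd (minpoly K T)
    (minpoly.ne_zero hint) 0
  set a := rootMultiplicity 0 (minpoly K T)
  have hg0 : g ≠ 0 := by
    rintro rfl
    exact minpoly.ne_zero hint (by rw [hg, mul_zero])
  obtain ⟨f, hf, hf1⟩ := exists_eq_pow_rootMultiplicity_mul_and_not_dvd g hg0 1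
  set b := rootMultiplicity 1 g
  have hfX : ¬ (X - C (0 : K)) ∣ f := fun hd => hgX (by rw [hf]; exact hd.mul_left _)
  rw [C_0, sub_zero] at hfX hg
  -- the three factors
  set A : K[X] := X ^ (a + 1) with hA
  set B : K[X] := (X - C 1) ^ (b + 1) with hB
  have hF : aeval T (A * B * f) = 0 := by
    have : A * B * f = minpoly K T * (X * (X - C 1)) := by
      rw [hg, hf, hA, hB]; ring
    rw [this, map_mul, minpoly.aeval, zero_mul]
  have hdvd : ∀ P : K[X], A * B * f ∣ P → aeval T P = 0 := by
    rintro _ ⟨Q, rfl⟩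
    rw [map_mul, hF, zero_mul]
  have c1 : IsCoprime (X - C (1 : K)) X := ⟨-1, 1, by rw [C_1]; ring⟩
  have c2 : IsCoprime (X - C (1 : K)) f :=
    (Irreducible.coprime_iff_not_dvd (irreducible_X_sub_C 1)).2 hf1
  have c3 : IsCoprime (X : K[X]) f := (Irreducible.coprime_iff_not_dvd irreducible_X).2 hfX
  have cB : IsCoprime B (A * f) := (c1.pow_right.mul_right c2).pow_left
  have cf : IsCoprime f (A * B) := (c3.pow_left.symm).mul_right c2.pow_left.symm
  obtain ⟨u, v, huv⟩ := cB
  obtain ⟨u', v', huv'⟩ := cf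
  set P1 : K[X] := v * (A * f) with hP1
  set P2 : K[X] := v' * (A * B) with hP2
  set e1 := aeval T P1 with he1
  set e2 := aeval T P2 with he2
  have hP1' : 1 - P1 = u * B := by rw [← huv]; ring
  have hP2' : 1 - P2 = u' * f := by rw [← huv']; ring
  have i1 : e1 * e1 = e1 := by
    rw [← sub_eq_zero, he1, ← map_mul, ← map_sub]
    apply hdvd
    have : P1 * P1 - P1 = -(P1 * (1 - P1)) := by ring
    rw [this, hP1', hP1]
    exact ⟨-(v * u), by ring⟩
  have i2 : e2 * e2 = e2 := by
    rw [← sub_eq_zero, he2, ← map_mul, ← map_sub]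
    apply hdvd
    have : P2 * P2 - P2 = -(P2 * (1 - P2)) := by ring
    rw [this, hP2', hP2]
    exact ⟨-(v' * u'), by ring⟩
  have i12 : e2 * e1 = 0 := by
    rw [he1, he2, ← map_mul]
    apply hdvd
    rw [hP1, hP2]
    exact ⟨v' * v * A, by ring⟩
  -- commutation with the parity
  have hcomm : ∀ P : K[X], Commute ε (aeval T P) := by
    intro P
    have hT' : Commute ε T := hT
    induction P using Polynomial.induction_on' with
    | add P Q hP hQ => rw [map_add]; exact hP.add_right hQ
    | monomial n a =>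
      rw [aeval_monomial]
      exact (Algebra.commute_algebraMap_right a ε).mul_right (hT'.pow_right n)
  set π : Module.End K V := (2 : K)⁻¹ • (1 + ε) with hπ
  set π' : Module.End K V := (2 : K)⁻¹ • (1 - ε) with hπ'
  have hππ : π * π = π := by
    rw [hπ, smul_mul_smul_comm, mul_add, add_mul, add_mul, hε]
    simp only [one_mul, mul_one]
    have : (1 + ε + (ε + 1) : Module.End K V) = (2 : K) • (1 + ε) := by
      rw [two_smul]; abel
    rw [this, smul_smul]
    congr 1
    field_simp
  have hππ' : π' * π' = π' := by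
    rw [hπ', smul_mul_smul_comm, mul_sub, sub_mul, sub_mul, hε]
    simp only [one_mul, mul_one]
    have : (1 - ε - (ε - 1) : Module.End K V) = (2 : K) • (1 - ε) := by
      rw [two_smul]; abel
    rw [this, smul_smul]
    congr 1
    field_simp
  have hεπ : π - π' = ε := by
    rw [hπ, hπ', ← smul_sub]
    have : (1 + ε - (1 - ε) : Module.End K V) = (2 : K) • ε := by
      rw [two_smul]; abel
    rw [this, smul_smul, inv_mul_cancel₀ h2, one_smul]
  have cπ : ∀ P : K[X], Commute π (aeval T P) := fun P =>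
    ((Commute.one_left _).add_left (hcomm P)).smul_left _
  have cπ' : ∀ P : K[X], Commute π' (aeval T P) := fun P =>
    ((Commute.one_left _).sub_left (hcomm P)).smul_left _
  have t1 : LinearMap.trace K V (e1 * ε) = p := by
    have hX : P1 = X * (v * (X ^ a * f)) := by rw [hP1, hA]; ring
    have h1 := trace_poly h (v * (X ^ a * f))
    rw [← hX] at h1
    have h3 : (v * (X ^ a * f)).eval 1 = 1 := by
      have h4 := congrArg (fun P : K[X] => P.eval 1) hP1'
      simp only [eval_sub, eval_one, hX, eval_mul, eval_X, one_mul, hB, eval_pow, eval_C,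
        sub_self] at h4
      rw [zero_pow (by omega), mul_zero, sub_eq_zero] at h4
      simp only [eval_mul, eval_pow, eval_X]
      exact h4.symm
    rw [h3, mul_one] at h1
    exact h1
  have t2 : LinearMap.trace K V (e2 * ε) = 0 := by
    have hX : P2 = X * (v' * (X ^ a * B)) := by rw [hP2, hA]; ring
    have h1 := trace_poly h (v' * (X ^ a * B))
    rw [← hX] at h1
    have h3 : (v' * (X ^ a * B)).eval 1 = 0 := by
      simp only [eval_mul, eval_pow, hB, eval_sub, eval_X, eval_C, sub_self]
      rw [zero_pow (by omega)]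
      ring
    rw [h3, mul_zero] at h1
    exact h1
  have comm_idem : ∀ {x y : Module.End K V}, x * x = x → y * y = y → Commute x y →
      (x * y) * (x * y) = x * y := by
    intro x y hx hy hxy
    rw [mul_assoc, ← mul_assoc y, ← hxy.eq, mul_assoc, hy, ← mul_assoc, hx]
  have s1 : (1 - e1) * π = 0 ∧ e1 * π' = 0 := by
    apply two_idem
    · apply comm_idem _ hππ
      · exact ((Commute.one_right _).sub_right (cπ P1)).symm
      · rw [sub_mul, mul_sub, mul_sub, i1]; simp
    · exact comm_idem i1 hππ' (cπ' P1).symm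
    · have h3 : (1 - e1) * π + e1 * π' = π - e1 * ε := by
        rw [← hεπ]; noncomm_ring
      rw [← map_add, h3, map_sub, t1, hπ, hp, sub_self]
  have hπe : e1 * π = π := by
    have h3 := s1.1
    rw [sub_mul, one_mul, sub_eq_zero] at h3
    exact h3.symm
  have s2 : e2 * π = 0 := by rw [← hπe, ← mul_assoc, i12, zero_mul]
  have s3 : e2 * π' = 0 := by
    have h3 := two_idem (a := e2 * π') (b := 0) (comm_idem i2 hππ' (cπ' P2).symm) (by simp) (by
      have h4 : e2 * ε = - (e2 * π') := by
        rw [← hεπ, mul_sub, s2, zero_sub]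
      rw [h4, map_neg, neg_eq_zero] at t2
      rw [t2, map_zero, add_zero])
    exact h3.1
  refine ⟨a + 1 + (b + 1), ?_, ?_⟩
  · have h3 : (1 - T) ^ (b + 1) * e1 = 0 := by
      have h4 : (1 - T) ^ (b + 1) * e1 = aeval T ((1 - X) ^ (b + 1) * P1) := by
        rw [map_mul, map_pow, map_sub, map_one, aeval_X]
      rw [h4]
      apply hdvd
      have h5 : (1 - X : K[X]) = -(X - C 1) := by rw [C_1]; ring
      rw [h5, neg_pow, ← hB, hP1]
      exact ⟨(-1) ^ (b + 1) * v, by ring⟩
    rw [pow_add, mul_assoc, ← hπe, ← mul_assoc ((1 - T) ^ (b + 1)), h3, zero_mul, mul_zero]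
  · have h3 : T ^ (a + 1) * ((1 - e1) * (1 - e2)) = 0 := by
      have h4 : T ^ (a + 1) * ((1 - e1) * (1 - e2)) = aeval T (X ^ (a + 1) * ((1 - P1) * (1 - P2))) := by
        rw [map_mul, map_mul, map_pow, map_sub, map_sub, map_one, aeval_X]
      rw [h4, hP1', hP2', ← hA]
      apply hdvd
      exact ⟨u * u', by ring⟩
    have h4 : (1 - e1) * (1 - e2) * π' = π' := by
      rw [mul_assoc, sub_mul 1 e2, s3, one_mul, sub_zero, sub_mul, s1.2, one_mul, sub_zero]
    rw [add_comm, pow_add, mul_assoc, ← h4, ← mul_assoc (T ^ (a + 1)), h3, zero_mul, mul_zero]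

/-- the parity projector is a rational polynomial in `T` -/
theorem proj_eq {ε T : Module.End K V} {N : ℕ}
    (h1 : (1 - T) ^ N * ((2 : K)⁻¹ • (1 + ε)) = 0) (h2 : T ^ N * ((2 : K)⁻¹ • (1 - ε)) = 0) :
    1 - (1 - T ^ N) ^ N = (2 : K)⁻¹ • (1 + ε) := by
  have hsum : (2 : K)⁻¹ • (1 + ε) + (2 : K)⁻¹ • (1 - ε) = (1 : Module.End K V) := by
    rw [← smul_add]
    have : (1 + ε + (1 - ε) : Module.End K V) = (2 : K) • 1 := by
      rw [two_smul]; abel
    rw [this, smul_smul, inv_mul_cancel₀ two_ne_zero, one_smul]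
  set π : Module.End K V := (2 : K)⁻¹ • (1 + ε)
  set π' : Module.End K V := (2 : K)⁻¹ • (1 - ε)
  have hA : (1 - (1 - T ^ N) ^ N) * π = π := by
    have h3 : (1 - T ^ N : Module.End K V) = (∑ i ∈ Finset.range N, T ^ i) * (1 - T) := by
      rw [geom_sum_mul_neg]
    have hc : Commute (∑ i ∈ Finset.range N, T ^ i) (1 - T) := by
      apply Commute.sub_right (Commute.one_right _)
      exact Commute.sum_left _ _ _ fun i _ => (Commute.refl T).pow_left i
    rw [h3, hc.mul_pow, sub_mul, mul_assoc, h1, mul_zero, sub_zero, one_mul]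
  have hB : (1 - (1 - T ^ N) ^ N) * π' = 0 := by
    have h3 : ∀ n : ℕ, (1 - T ^ N) ^ n * π' = π' := by
      intro n
      induction n with
      | zero => rw [pow_zero, one_mul]
      | succ n ih => rw [pow_succ, mul_assoc, sub_mul, h2, one_mul, sub_zero, ih]
    rw [sub_mul, h3, one_mul, sub_self]
  calc 1 - (1 - T ^ N) ^ N = (1 - (1 - T ^ N) ^ N) * (π + π') := by rw [hsum, mul_one]
    _ = π := by rw [mul_add, hA, hB, add_zero]

end Pool.Agent.Q259.NCSign
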