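import Pool.Agent.Y112.SC.Box
import Pool.Agent.TH133.PW.CasB
import Pool.Agent.Q259.NCSign.Lin

/-! Criteria for the sign conjecture in a rigid category with a super realisation. -/

set_option autoImplicit false
set_option linter.unusedSectionVars false
set_option linter.unusedSimpArgs false
set_option backward.isDefEq.respectTransparency false
set_option backward.defeqAttrib.useBackward true

open CategoryTheory Limits MonoidalCategory
open Pool.Agent.Y112.SR

namespace Pool.Agent.Q259.NCSign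

universe v u w

open Functor.LaxMonoidal Functor.OplaxMonoidal

section

variable {C : Type u} [Category.{v} C] [Preadditive C] [Linear ℚ C] [MonoidalCategory C]
  [SymmetricCategory C] [RightRigidCategory C] {K : Type w} [Field K] (R : SuperRealisation C K)

/-- The trace of an endomorphism of a dualisable object. -/
def ctr {M : C} (f : M ⟶ M) : 𝟙_ C ⟶ 𝟙_ C :=
  η_ M Mᘁ ≫ f ▷ Mᘁ ≫ (β_ M Mᘁ).hom ≫ ε_ M Mᘁ

lemma map_ctr {M : C} (f : M ⟶ M) : Functor.LaxMonoidal.ε R.H ≫ R.H.map (ctr f) ≫
    Functor.OplaxMonoidal.η R.H =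
    (LinearMap.trace K (R.H.obj M) (R.H.map f ≫ R.par M).hom) • 𝟙 _ := by
  have hK := R_charZero R
  have h2 : (2 : K) ≠ 0 := two_ne_zero
  have h0 := R.finite M
  have h1 := Pool.Agent.Y116.MT.vec_trace (coe R M) (evb R M) (zigzag R M) (R.H.map f ≫ R.par M)
  have h3 : coe R M ≫ R.H.map f ▷ R.H.obj Mᘁ ≫ eva R M =
      (LinearMap.trace K (R.H.obj M) (R.H.map f ≫ R.par M).hom) • 𝟙 _ := by
    rw [eva_eq R h2, ← h1, ← unit_hom]
    simp only [comp_whiskerRight, Category.assoc]
  rw [← h3, ctr, coe, eva]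
  simp only [Functor.map_comp, Functor.Monoidal.map_whiskerRight, Category.assoc]

lemma unit_smul_inj {x y : K} (h : x • 𝟙 (𝟙_ (ModuleCat.{w} K)) = y • 𝟙 (𝟙_ (ModuleCat.{w} K))) :
    x = y := by
  have h4 := LinearMap.congr_fun (congrArg ModuleCat.Hom.hom h) (1 : K)
  have h5 : x • (1 : K) = y • (1 : K) := h4
  simpa using h5

lemma trace_of_ctr {M : C} {f : M ⟶ M} {q : ℚ} (h : ctr f = q • 𝟙 _) :
    LinearMap.trace K (R.H.obj M) (R.H.map f ≫ R.par M).hom = (q : K) := by
  have hK := R_charZero R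
  have h1 := map_ctr R f
  rw [h, R_smul, CategoryTheory.Functor.map_id, Linear.smul_comp, Linear.comp_smul,
    Category.id_comp, Functor.Monoidal.ε_η] at h1
  exact (unit_smul_inj h1).symm

/-- The ring homomorphism from the endomorphisms to the operators. -/
noncomputable def opHom (M : C) : End M →+* Module.End K (R.H.obj M) where
  toFun f := (R.H.map f).hom
  map_one' := by
    rw [End.one_def, CategoryTheory.Functor.map_id]
    rfl
  map_mul' f g := by
    rw [End.mul_def, Functor.map_comp]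
    rfl
  map_zero' := by
    rw [Functor.map_zero]
    rfl
  map_add' f g := by
    rw [Functor.map_add]
    rfl

lemma opHom_apply (M : C) (f : M ⟶ M) : opHom R M f = (R.H.map f).hom := rfl

/-- The operators on the realisation of `M` given by the endomorphisms of `M`. -/
def ops (M : C) : Set (Module.End K (R.H.obj M)) := {a | ∃ f : M ⟶ M, (R.H.map f).hom = a}

/-- The parity as an operator. -/
noncomputable def sgn (M : C) : Module.End K (R.H.obj M) := (R.par M).hom

lemma sgn_sq (M : C) : sgn R M * sgn R M = 1 := by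
  have := congrArg ModuleCat.Hom.hom (R.par_sq M)
  exact this

lemma sgn_comm {M : C} {a : Module.End K (R.H.obj M)} (ha : a ∈ ops R M) :
    sgn R M * a = a * sgn R M := by
  obtain ⟨f, rfl⟩ := ha
  have := congrArg ModuleCat.Hom.hom (R.par_natural f)
  exact this

lemma sgn_comm_span {M : C} {a : Module.End K (R.H.obj M)} (ha : a ∈ Submodule.span K (ops R M)) :
    sgn R M * a = a * sgn R M := by
  induction ha using Submodule.span_induction with
  | mem x hx => exact sgn_comm R hx
  | zero => simp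
  | add x y _ _ h1 h2 => rw [mul_add, add_mul, h1, h2]
  | smul c x _ h1 => rw [mul_smul_comm, smul_mul_assoc, h1]

lemma one_mem_ops (M : C) : (1 : Module.End K (R.H.obj M)) ∈ ops R M :=
  ⟨𝟙 M, (opHom R M).map_one⟩

lemma mul_mem_ops {M : C} {a b : Module.End K (R.H.obj M)} (ha : a ∈ ops R M) (hb : b ∈ ops R M) :
    a * b ∈ ops R M := by
  obtain ⟨f, rfl⟩ := ha
  obtain ⟨g, rfl⟩ := hb
  exact ⟨(show End M from f) * (show End M from g), (opHom R M).map_mul _ _⟩

lemma add_mem_ops {M : C} {a b : Module.End K (R.H.obj M)} (ha : a ∈ ops R M) (hb : b ∈ ops R M) :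
    a + b ∈ ops R M := by
  obtain ⟨f, rfl⟩ := ha
  obtain ⟨g, rfl⟩ := hb
  exact ⟨f + g, (opHom R M).map_add _ _⟩

lemma smul_mem_ops {M : C} {a : Module.End K (R.H.obj M)} (q : ℚ) (ha : a ∈ ops R M) :
    (q : K) • a ∈ ops R M := by
  have hK := R_charZero R
  obtain ⟨f, rfl⟩ := ha
  exact ⟨q • f, by rw [R_smul]; rfl⟩

/-- the monoid of operators -/
def opsM (M : C) : Submonoid (Module.End K (R.H.obj M)) where
  carrier := ops R M
  one_mem' := one_mem_ops R M
  mul_mem' := fun ha hb => mul_mem_ops R ha hb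

/-- the algebra of operators -/
noncomputable def opsA (M : C) : Subalgebra K (Module.End K (R.H.obj M)) :=
  Algebra.adjoin K (ops R M)

lemma mem_opsA {M : C} {a : Module.End K (R.H.obj M)} :
    a ∈ opsA R M ↔ a ∈ Submodule.span K (ops R M) := by
  rw [opsA, ← Subalgebra.mem_toSubmodule, Algebra.adjoin_eq_span]
  have h1 : Submonoid.closure (ops R M) = opsM R M := Submonoid.closure_eq (opsM R M)
  have h2 : (Submonoid.closure (ops R M) : Set (Module.End K (R.H.obj M))) = ops R M := by
    rw [h1]; rfl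
  rw [h2]

lemma mul_mem_span {M : C} {a b : Module.End K (R.H.obj M)}
    (ha : a ∈ Submodule.span K (ops R M)) (hb : b ∈ Submodule.span K (ops R M)) :
    a * b ∈ Submodule.span K (ops R M) := by
  rw [← mem_opsA] at ha hb ⊢
  exact mul_mem ha hb

/-- (2) the even projector is in the span of the operators -/
def InSpan (M : C) : Prop := ∃ P ∈ Submodule.span K (ops R M), (2 : K) • P = 1 + sgn R M

/-- (3) separation of an even and an odd vector -/
def Separates (M : C) : Prop := ∀ x y, sgn R M x = x → sgn R M y = -y →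
  ∃ P ∈ Submodule.span K (ops R M), P x = x ∧ P y = 0

/-- (4) stable subspaces are graded -/
def StableGraded (M : C) : Prop := ∀ N : Submodule K (R.H.obj M),
  (∀ a ∈ ops R M, ∀ x ∈ N, a x ∈ N) → ∀ x ∈ N, sgn R M x ∈ N

/-- (5) an endomorphism whose powers have the trace `dim` of the even part -/
def TracePowers (M : C) : Prop := ∃ z : End M, ∀ m : ℕ, 1 ≤ m →
  ctr (z ^ m : End M) = (Module.finrank K (LinearMap.ker (sgn R M - 1)) : ℚ) • 𝟙 _

lemma cplus_iff_hom {M : C} : R.CPlus M ↔ ∃ f : M ⟶ M, (2 : K) • (R.H.map f).hom = 1 + sgn R M := by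
  constructor
  · rintro ⟨f, hf⟩
    exact ⟨f, congrArg ModuleCat.Hom.hom hf⟩
  · rintro ⟨f, hf⟩
    exact ⟨f, ModuleCat.hom_ext hf⟩

lemma span_of_cplus {M : C} (h : R.CPlus M) : InSpan R M := by
  obtain ⟨f, hf⟩ := (cplus_iff_hom R).1 h
  exact ⟨_, Submodule.subset_span ⟨f, rfl⟩, hf⟩

lemma span_stable {M : C} {N : Submodule K (R.H.obj M)} (hN : ∀ a ∈ ops R M, ∀ x ∈ N, a x ∈ N)
    {P : Module.End K (R.H.obj M)} (hP : P ∈ Submodule.span K (ops R M)) :
    ∀ x ∈ N, P x ∈ N := by
  intro x hx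
  induction hP using Submodule.span_induction with
  | mem a ha => exact hN a ha x hx
  | zero => exact N.zero_mem
  | add a b _ _ h1 h2 => exact N.add_mem h1 h2
  | smul c a _ h1 => exact N.smul_mem c h1

lemma graded_of_span {M : C} (h : InSpan R M) : StableGraded R M := by
  obtain ⟨P, hP, hP'⟩ := h
  intro N hN x hx
  have h1 : P x ∈ N := span_stable R hN hP x hx
  have h2 := LinearMap.congr_fun hP' x
  have h3 : sgn R M x = (2 : K) • P x - x := by
    rw [eq_sub_iff_add_eq, add_comm]
    exact h2.symm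
  rw [h3]
  exact N.sub_mem (N.smul_mem _ h1) hx

lemma separates_of_graded {M : C} (h : StableGraded R M) : Separates R M := by
  have hK := R_charZero R
  have h2 : (2 : K) ≠ 0 := two_ne_zero
  intro x y hx hy
  -- the submodule of the images of `x + y`
  set N : Submodule K (R.H.obj M) :=
    (Submodule.span K (ops R M)).map ((LinearMap.applyₗ (x + y)) : (Module.End K (R.H.obj M)) →ₗ[K] _)
    with hN
  have hmem : ∀ v, v ∈ N ↔ ∃ P ∈ Submodule.span K (ops R M), P (x + y) = v := by
    intro v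
    rw [hN, Submodule.mem_map]
    rfl
  have hxy : x + y ∈ N := (hmem _).2 ⟨1, Submodule.subset_span (one_mem_ops R M), rfl⟩
  have hst : ∀ a ∈ ops R M, ∀ v ∈ N, a v ∈ N := by
    intro a ha v hv
    obtain ⟨P, hP, rfl⟩ := (hmem v).1 hv
    exact (hmem _).2 ⟨a * P, mul_mem_span R (Submodule.subset_span ha) hP, rfl⟩
  have h3 := h N hst _ hxy
  rw [map_add, hx, hy] at h3
  have h4 : x ∈ N := by
    have h5 := N.smul_mem (2 : K)⁻¹ (N.add_mem hxy h3)
    have h6 : (x + y + (x + -y)) = (2 : K) • x := by rw [two_smul]; abel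
    rwa [h6, smul_smul, inv_mul_cancel₀ h2, one_smul] at h5
  obtain ⟨P, hP, hPx⟩ := (hmem _).1 h4
  refine ⟨P, hP, ?_⟩
  have hc : ∀ v, sgn R M (P v) = P (sgn R M v) := fun v =>
    LinearMap.congr_fun (sgn_comm_span R hP) v
  rw [map_add] at hPx
  have h7 : P x - P y = x := by
    have h8 := congrArg (sgn R M) hPx
    rw [map_add, hc, hc, hx, hy, map_neg] at h8
    rw [sub_eq_add_neg]
    exact h8
  have h9 : (2 : K) • P x = (2 : K) • x := by
    rw [two_smul, two_smul]
    calc P x + P x = (P x + P y) + (P x - P y) := by abel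
      _ = x + x := by rw [hPx, h7]
  have h10 : P x = x := by
    have := congrArg (fun v => (2 : K)⁻¹ • v) h9
    simpa [smul_smul, inv_mul_cancel₀ h2] using this
  refine ⟨h10, ?_⟩
  rw [h10] at hPx
  simpa using hPx

/-- one even vector against finitely many odd ones -/
lemma sep_fin {M : C} (h : Separates R M) {x : R.H.obj M} (hx : sgn R M x = x) (l : List (R.H.obj M))
    (hl : ∀ y ∈ l, sgn R M y = -y) :
    ∃ P ∈ Submodule.span K (ops R M), P x = x ∧ ∀ y ∈ l, P y = 0 := by
  induction l with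
  | nil => exact ⟨1, Submodule.subset_span (one_mem_ops R M), rfl, by simp⟩
  | cons y l ih =>
    obtain ⟨P, hP, hPx, hPl⟩ := ih fun z hz => hl z (List.mem_cons_of_mem _ hz)
    have hy := hl y List.mem_cons_self
    have hc : sgn R M (P y) = P (sgn R M y) := LinearMap.congr_fun (sgn_comm_span R hP) y
    obtain ⟨Q, hQ, hQx, hQy⟩ := h x (P y) hx (by rw [hc, hy, map_neg])
    refine ⟨Q * P, mul_mem_span R hQ hP, ?_, ?_⟩
    · rw [Module.End.mul_apply, hPx, hQx]
    · intro z hz
      rw [Module.End.mul_apply]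
      rcases List.mem_cons.1 hz with rfl | hz
      · exact hQy
      · rw [hPl z hz, map_zero]

lemma sep_odd {M : C} (h : Separates R M) {x : R.H.obj M} (hx : sgn R M x = x) :
    ∃ P ∈ Submodule.span K (ops R M), P x = x ∧ ∀ y, sgn R M y = -y → P y = 0 := by
  have h0 := R.finite M
  obtain ⟨s, hs⟩ := (IsNoetherian.noetherian (LinearMap.ker (sgn R M + 1)) :
    (LinearMap.ker (sgn R M + 1)).FG)
  have hodd : ∀ y, sgn R M y = -y ↔ y ∈ LinearMap.ker (sgn R M + 1) := by
    intro y
    rw [LinearMap.mem_ker, LinearMap.add_apply, Module.End.one_apply, eq_neg_iff_add_eq_zero]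
  obtain ⟨P, hP, hPx, hPl⟩ := sep_fin R h hx s.toList (by
    intro y hy
    rw [hodd, ← hs]
    exact Submodule.subset_span (Finset.mem_toList.1 hy))
  refine ⟨P, hP, hPx, fun y hy => ?_⟩
  rw [hodd, ← hs] at hy
  have hle : Submodule.span K (s : Set (R.H.obj M)) ≤ LinearMap.ker P := by
    rw [Submodule.span_le]
    intro z hz
    exact LinearMap.mem_ker.2 (hPl z (Finset.mem_toList.2 hz))
  exact LinearMap.mem_ker.1 (hle hy)

lemma sep_all {M : C} (h : Separates R M) (l : List (R.H.obj M)) (hl : ∀ x ∈ l, sgn R M x = x) :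
    ∃ P ∈ Submodule.span K (ops R M), (∀ x ∈ l, P x = x) ∧ ∀ y, sgn R M y = -y → P y = 0 := by
  induction l with
  | nil => exact ⟨0, Submodule.zero_mem _, by simp, by simp⟩
  | cons x l ih =>
    obtain ⟨P, hP, hPl, hPy⟩ := ih fun z hz => hl z (List.mem_cons_of_mem _ hz)
    have hx := hl x List.mem_cons_self
    have hc : sgn R M (P x) = P (sgn R M x) := LinearMap.congr_fun (sgn_comm_span R hP) x
    obtain ⟨Q, hQ, hQx, hQy⟩ := sep_odd R h (x := x - P x) (by rw [map_sub, hc, hx])
    refine ⟨P + Q - Q * P, Submodule.sub_mem _ (Submodule.add_mem _ hP hQ) (mul_mem_span R hQ hP),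
      ?_, ?_⟩
    · intro z hz
      rw [LinearMap.sub_apply, LinearMap.add_apply, Module.End.mul_apply]
      rcases List.mem_cons.1 hz with rfl | hz
      · have h1 : Q z - Q (P z) = z - P z := by rw [← map_sub, hQx]
        rw [add_sub_assoc, h1]; abel
      · rw [hPl z hz]; abel
    · intro y hy
      rw [LinearMap.sub_apply, LinearMap.add_apply, Module.End.mul_apply, hPy y hy, hQy y hy,
        map_zero]
      simp

lemma span_of_separates {M : C} (h : Separates R M) : InSpan R M := by
  have hK := R_charZero R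
  have h2 : (2 : K) ≠ 0 := two_ne_zero
  have h0 := R.finite M
  obtain ⟨s, hs⟩ := (IsNoetherian.noetherian (LinearMap.ker (sgn R M - 1)) :
    (LinearMap.ker (sgn R M - 1)).FG)
  have heven : ∀ y, sgn R M y = y ↔ y ∈ LinearMap.ker (sgn R M - 1) := by
    intro y
    rw [LinearMap.mem_ker, LinearMap.sub_apply, Module.End.one_apply, sub_eq_zero]
  obtain ⟨P, hP, hPl, hPy⟩ := sep_all R h s.toList (by
    intro y hy
    rw [heven, ← hs]
    exact Submodule.subset_span (Finset.mem_toList.1 hy))
  have hPx : ∀ x, sgn R M x = x → P x = x := by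
    intro x hx
    rw [heven, ← hs] at hx
    have hle : Submodule.span K (s : Set (R.H.obj M)) ≤ LinearMap.ker (P - 1) := by
      rw [Submodule.span_le]
      intro z hz
      refine LinearMap.mem_ker.2 ?_
      rw [LinearMap.sub_apply, Module.End.one_apply, hPl z (Finset.mem_toList.2 hz), sub_self]
    have := LinearMap.mem_ker.1 (hle hx)
    rwa [LinearMap.sub_apply, Module.End.one_apply, sub_eq_zero] at this
  refine ⟨P, hP, LinearMap.ext fun v => ?_⟩
  have hss : sgn R M (sgn R M v) = v := LinearMap.congr_fun (sgn_sq R M) v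
  have h3 : P (v + sgn R M v) = v + sgn R M v := hPx _ (by rw [map_add, hss, add_comm])
  have h4 : P (v - sgn R M v) = 0 := hPy _ (by rw [map_sub, hss, neg_sub])
  have h5 : (2 : K) • P v = P (v + sgn R M v) + P (v - sgn R M v) := by
    rw [← map_add, ← map_smul]
    congr 1
    rw [two_smul]; abel
  change (2 : K) • P v = v + sgn R M v
  rw [h5, h3, h4, add_zero]

lemma two_smul_half {M : C} : (2 : K) • ((2 : K)⁻¹ • (1 + sgn R M)) = 1 + sgn R M := by
  have hK := R_charZero R
  rw [smul_smul, mul_inv_cancel₀ (two_ne_zero : (2 : K) ≠ 0), one_smul]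

lemma half_idem {M : C} : ((2 : K)⁻¹ • (1 + sgn R M)) * ((2 : K)⁻¹ • (1 + sgn R M)) =
    (2 : K)⁻¹ • (1 + sgn R M) := by
  have hK := R_charZero R
  rw [smul_mul_smul_comm, mul_add, add_mul, add_mul, sgn_sq]
  simp only [one_mul, mul_one]
  have : (1 + sgn R M + (sgn R M + 1) : Module.End K (R.H.obj M)) = (2 : K) • (1 + sgn R M) := by
    rw [two_smul]; abel
  rw [this, smul_smul]
  congr 1
  field_simp

lemma cplus_of_span (hunit : ∀ c : 𝟙_ C ⟶ 𝟙_ C, ∃ q : ℚ, c = q • 𝟙 _) {M : C}
    (h : InSpan R M) : R.CPlus M := by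
  have hK := R_charZero R
  have h2 : (2 : K) ≠ 0 := two_ne_zero
  have h0 := R.finite M
  obtain ⟨P, hP, hP'⟩ := h
  have hPe : P = (2 : K)⁻¹ • (1 + sgn R M) := by
    rw [← hP', smul_smul, inv_mul_cancel₀ h2, one_smul]
  let A : Set (opsA R M) := {x | (x : Module.End K (R.H.obj M)) ∈ ops R M}
  have hA : ∀ x : opsA R M, x ∈ A ↔ (x : Module.End K (R.H.obj M)) ∈ ops R M := fun _ => Iff.rfl
  have hPk : P ∈ opsA R M := (mem_opsA R).2 hP
  have hmem : (⟨P, hPk⟩ : opsA R M) ∈ A := by
    apply Pool.Agent.TH133.PW.central_idem_mem (K := K) (V := R.H.obj M) (A := A)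
      ((hA _).2 (one_mem_ops R M))
      (fun x hx y hy => (hA _).2 (add_mem_ops R hx hy)) (fun q x hx => (hA _).2 (smul_mem_ops R q hx))
      (fun x hx y hy => (hA _).2 (mul_mem_ops R hx hy)) ?_ (opsA R M).val
      Subtype.val_injective
    · apply Subtype.ext
      change P * P = P
      rw [hPe, half_idem]
    · intro x
      apply Subtype.ext
      change P * x.1 = x.1 * P
      have h3 := sgn_comm_span R ((mem_opsA R).1 x.2)
      rw [hPe, smul_mul_assoc, mul_smul_comm, add_mul, mul_add, h3, one_mul, mul_one]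
    · intro x hx
      obtain ⟨f, hf⟩ := hx
      obtain ⟨q, hq⟩ := hunit (ctr f)
      refine ⟨q, ?_⟩
      have e1 : (opsA R M).val ((⟨P, hPk⟩ : opsA R M) * x) = P * x.1 := rfl
      have e2 : (opsA R M).val ((1 - (⟨P, hPk⟩ : opsA R M)) * x) = (1 - P) * x.1 := rfl
      rw [e1, e2, ← map_sub, ← sub_mul, ← trace_of_ctr R hq]
      have e3 : P - (1 - P) = sgn R M := by
        have : P - (1 - P) = (2 : K) • P - 1 := by rw [two_smul]; abel
        rw [this, hP']; abel
      rw [e3, ← hf]
      rfl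
    · rw [eq_top_iff]
      rintro ⟨y, hy⟩ -
      have key : ∀ y (hy : y ∈ Submodule.span K (ops R M)),
          (⟨y, (mem_opsA R).2 hy⟩ : opsA R M) ∈ Submodule.span K A := by
        intro y hy
        induction hy using Submodule.span_induction with
        | mem y hy => exact Submodule.subset_span ((hA _).2 hy)
        | zero => exact Submodule.zero_mem _
        | add x y _ _ h1 h2 => exact Submodule.add_mem _ h1 h2
        | smul a x _ h1 => exact Submodule.smul_mem _ a h1
      exact key y ((mem_opsA R).1 hy)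
  obtain ⟨f, hf⟩ := (hA _).1 hmem
  refine (cplus_iff_hom R).2 ⟨f, ?_⟩
  rw [hf]
  exact hP'

lemma trace_half (M : C) : LinearMap.trace K (R.H.obj M) ((2 : K)⁻¹ • (1 + sgn R M)) =
    (Module.finrank K (LinearMap.ker (sgn R M - 1)) : K) := by
  have hK := R_charZero R
  have h2 : (2 : K) ≠ 0 := two_ne_zero
  have h0 := R.finite M
  have hp : LinearMap.IsProj (LinearMap.ker (sgn R M - 1)) ((2 : K)⁻¹ • (1 + sgn R M)) := by
    refine ⟨fun x => ?_, fun x hx => ?_⟩
    · rw [LinearMap.mem_ker]
      have hss : sgn R M (sgn R M x) = x := LinearMap.congr_fun (sgn_sq R M) x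
      change sgn R M ((2 : K)⁻¹ • (x + sgn R M x)) - (2 : K)⁻¹ • (x + sgn R M x) = 0
      rw [map_smul, map_add, hss, add_comm x, sub_self]
    · rw [LinearMap.mem_ker, LinearMap.sub_apply, Module.End.one_apply, sub_eq_zero] at hx
      change (2 : K)⁻¹ • (x + sgn R M x) = x
      rw [hx, ← two_smul K, smul_smul, inv_mul_cancel₀ h2, one_smul]
  exact hp.trace

lemma traces_of_cplus (hunit : ∀ c : 𝟙_ C ⟶ 𝟙_ C, ∃ q : ℚ, c = q • 𝟙 _) {M : C}
    (h : R.CPlus M) : TracePowers R M := by
  have hK := R_charZero R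
  have h2 : (2 : K) ≠ 0 := two_ne_zero
  obtain ⟨f, hf⟩ := (cplus_iff_hom R).1 h
  refine ⟨f, fun m hm => ?_⟩
  obtain ⟨q, hq⟩ := hunit (ctr ((show End M from f) ^ m : End M))
  rw [hq]
  congr 1
  have h1 := trace_of_ctr R hq
  have hfe : (R.H.map f).hom = (2 : K)⁻¹ • (1 + sgn R M) := by
    rw [← hf, smul_smul, inv_mul_cancel₀ h2, one_smul]
  have hpow : (R.H.map ((show End M from f) ^ m : End M)).hom = (2 : K)⁻¹ • (1 + sgn R M) := by
    have e1 : (R.H.map ((show End M from f) ^ m : End M)).hom = (R.H.map f).hom ^ m :=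
      map_pow (opHom R M) (show End M from f) m
    rw [e1, hfe]
    obtain ⟨k, rfl⟩ : ∃ k, m = k + 1 := ⟨m - 1, by omega⟩
    exact IsIdempotentElem.pow_succ_eq k (half_idem R)
  have hs : sgn R M * ((2 : K)⁻¹ • (1 + sgn R M)) = (2 : K)⁻¹ • (1 + sgn R M) := by
    rw [mul_smul_comm, mul_add, mul_one, sgn_sq, add_comm]
  have e2 : (R.H.map ((show End M from f) ^ m : End M) ≫ R.par M).hom =
      sgn R M * (R.H.map ((show End M from f) ^ m : End M)).hom := rfl
  rw [e2, hpow, hs, trace_half] at h1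
  have h3 : ((q : ℚ) : K) = ((Module.finrank K (LinearMap.ker (sgn R M - 1)) : ℚ) : K) := by
    rw [← h1]; push_cast; rfl
  exact_mod_cast h3

lemma cplus_of_traces {M : C} (h : TracePowers R M) : R.CPlus M := by
  have hK := R_charZero R
  have h2 : (2 : K) ≠ 0 := two_ne_zero
  have h0 := R.finite M
  obtain ⟨z, hz⟩ := h
  set T : Module.End K (R.H.obj M) := opHom R M z with hT
  have hTo : T ∈ ops R M := ⟨z, rfl⟩
  have htr : ∀ m : ℕ, 1 ≤ m → LinearMap.trace K (R.H.obj M) (T ^ m * sgn R M) =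
      (Module.finrank K (LinearMap.ker (sgn R M - 1)) : K) := by
    intro m hm
    have h1 := trace_of_ctr R (hz m hm)
    have e1 : (R.H.map (z ^ m : End M)).hom = T ^ m := map_pow (opHom R M) z m
    have e2 : (R.H.map (z ^ m : End M) ≫ R.par M).hom =
        sgn R M * (R.H.map (z ^ m : End M)).hom := rfl
    rw [e2, e1] at h1
    have e3 : sgn R M * T ^ m = T ^ m * sgn R M :=
      (Commute.pow_right (sgn_comm R hTo) m)
    rw [← e3, h1]
    push_cast
    rfl
  obtain ⟨N, h3, h4⟩ := nilp_of_traces (sgn_sq R M) (sgn_comm R hTo) (trace_half R M) htr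
  have h5 := proj_eq h3 h4
  refine (cplus_iff_hom R).2 ⟨(1 - (1 - z ^ N) ^ N : End M), ?_⟩
  have e1 : (R.H.map (1 - (1 - z ^ N) ^ N : End M)).hom = 1 - (1 - T ^ N) ^ N := by
    change opHom R M (1 - (1 - z ^ N) ^ N) = _
    rw [map_sub, map_pow, map_sub, map_pow, map_one]
  rw [e1, h5, two_smul_half]

/-- **The criteria.** -/
theorem cplus_tfae (hunit : ∀ c : 𝟙_ C ⟶ 𝟙_ C, ∃ q : ℚ, c = q • 𝟙 _) (M : C) :
    [R.CPlus M, InSpan R M, Separates R M, StableGraded R M, TracePowers R M].TFAE := by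
  tfae_have 1 → 2 := span_of_cplus R
  tfae_have 2 → 4 := graded_of_span R
  tfae_have 4 → 3 := separates_of_graded R
  tfae_have 3 → 2 := span_of_separates R
  tfae_have 2 → 1 := cplus_of_span R hunit
  tfae_have 1 → 5 := traces_of_cplus R hunit
  tfae_have 5 → 1 := cplus_of_traces R
  tfae_finish

end

end Pool.Agent.Q259.NCSign
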